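import Pool.Agent.H84.KL.Fl5

/-!
# No parallel field of affine hyperplanes on a compact flat manifold
-/

namespace Pool.H84.KL

open Filter Topology Set MeasureTheory
open Pool.H1.Lor
open scoped ENNReal

theorem exists_disj {M : Type*} [MeasurableSpace M] {n : ℕ} (N : Fin n → Set M)
    (hN : ∀ i, MeasurableSet (N i)) (hc : ∀ x, ∃ i, x ∈ N i) :
    ∃ A : Fin n → Set M, (∀ i, MeasurableSet (A i)) ∧ (∀ i, A i ⊆ N i) ∧
      (∀ i j x, x ∈ A i → x ∈ A j → i = j) ∧ ∀ x, ∃ i, x ∈ A i := by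
  refine ⟨fun i => N i \ ⋃ j, ⋃ (_ : j < i), N j, fun i => ?_, fun i => sdiff_subset, ?_, ?_⟩
  · exact (hN i).diff (MeasurableSet.iUnion fun j => MeasurableSet.iUnion fun _ => hN j)
  · intro i j x hi hj
    rcases lt_trichotomy i j with h | h | h
    · exact absurd (mem_iUnion₂.2 ⟨i, h, hi.1⟩) hj.2
    · exact h
    · exact absurd (mem_iUnion₂.2 ⟨j, h, hj.1⟩) hi.2
  · intro x
    obtain ⟨i, hi, hmin⟩ := WellFounded.has_min (wellFounded_lt (α := Fin n)) {i | x ∈ N i} (hc x)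
    refine ⟨i, hi, ?_⟩
    intro h
    obtain ⟨j, hj, hx⟩ := mem_iUnion₂.1 h
    exact hmin j hx hj

section
variable {W : Type*} [NormedAddCommGroup W] [NormedSpace ℝ W] [FiniteDimensional ℝ W]
  {F : Type*} [NormedAddCommGroup F] [InnerProductSpace ℝ F]
  {M : Type*} [TopologicalSpace M] {B : Form W} {G : GX M B (0 : ℝ)} {ξ : M → F}
  {H : M → (M → W) → Set W} {x x₀ : M} {φ φ' : M → W} {ψ ψ' : W → M}
  [MeasurableSpace W] [BorelSpace W] [MeasurableSpace M] [BorelSpace M]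

omit [FiniteDimensional ℝ W] in
/-- Additivity over a partition. -/
theorem sum_image (μ : Measure W) {κ : Type*} [Fintype κ]
    {T : κ → Set M} (hT : ∀ j, MeasurableSet (T j)) (hd : ∀ i j x, x ∈ T i → x ∈ T j → i = j)
    (hc : ∀ x, ∃ i, x ∈ T i) {S : Set M} (hS : MeasurableSet S) (h : ∀ x ∈ S, G.chart x φ ψ) :
    μ (φ '' S) = ∑ j, μ (φ '' (S ∩ T j)) := by
  have h1 : S = ⋃ j, (S ∩ T j) := by
    rw [← inter_iUnion, iUnion_eq_univ_iff.2 hc, inter_univ]
  conv_lhs => rw [h1, image_iUnion]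
  rw [measure_iUnion, tsum_fintype]
  · intro i j hij
    rw [Function.onFun, Set.disjoint_left]
    rintro _ ⟨x, hx, rfl⟩ ⟨x', hx', he⟩
    have : x' = x := injOn_dom (h _ hx'.1) (h _ hx.1) he
    subst this
    exact hij (hd _ _ _ hx.2 hx'.2)
  · exact fun j => meas_image (hS.inter (hT j)) fun x hx => h x hx.1

/-- The mass of a set computed with a partition. -/
noncomputable def mass (μ : Measure W) {n : ℕ} (Φ : Fin n → M → W) (A : Fin n → Set M) (S : Set M) :
    ℝ≥0∞ := ∑ i, μ (Φ i '' (S ∩ A i))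

variable {n : ℕ} {Φ : Fin n → M → W} {Ψ : Fin n → W → M} {A : Fin n → Set M}

theorem mass_chart (μ : Measure W) [μ.IsAddHaarMeasure] (hA : ∀ i, MeasurableSet (A i))
    (hch : ∀ i, ∀ x ∈ A i, G.chart x (Φ i) (Ψ i)) (hd : ∀ i j x, x ∈ A i → x ∈ A j → i = j)
    (hc : ∀ x, ∃ i, x ∈ A i) {S : Set M} (hS : MeasurableSet S) (h : ∀ x ∈ S, G.chart x φ ψ) :
    mass μ Φ A S = μ (φ '' S) := by
  rw [sum_image μ hA hd hc hS h]
  refine Finset.sum_congr rfl fun i _ => ?_
  exact mass_eq μ (hS.inter (hA i)) (fun x hx => hch i x hx.2) (fun x hx => h x hx.1)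

omit [FiniteDimensional ℝ W] in
theorem mass_sum (μ : Measure W) (hA : ∀ i, MeasurableSet (A i))
    (hch : ∀ i, ∀ x ∈ A i, G.chart x (Φ i) (Ψ i))
    {T : Fin n → Set M} (hT : ∀ j, MeasurableSet (T j))
    (hd : ∀ i j x, x ∈ T i → x ∈ T j → i = j) (hc : ∀ x, ∃ i, x ∈ T i) :
    ∑ j, mass μ Φ A (T j) = ∑ i, μ (Φ i '' A i) := by
  unfold mass
  rw [Finset.sum_comm]
  refine Finset.sum_congr rfl fun i _ => ?_
  rw [sum_image μ hT hd hc (hA i) (hch i)]
  refine Finset.sum_congr rfl fun j _ => ?_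
  rw [inter_comm]

/-- The volume identity. -/
theorem volume_eq (μ : Measure W) [μ.IsAddHaarMeasure] {Fs : ℝ → M → M} {Y : Fin n → W → W}
    {R δ : Fin n → ℝ} {N : Fin n → Set M} (hL : ∀ i, LocD G Fs (Φ i) (Ψ i) (Y i) (R i) (δ i) (N i))
    (hA : ∀ i, MeasurableSet (A i)) (hAN : ∀ i, A i ⊆ N i)
    (hd : ∀ i j x, x ∈ A i → x ∈ A j → i = j) (hc : ∀ x, ∃ i, x ∈ A i) {s : ℝ}
    (hs : ∀ i, |s| < δ i) (hbij : Function.Bijective (Fs s)) :
    ∑ j, ∫⁻ z in Φ j '' A j, ENNReal.ofReal |(1 + s • fderiv ℝ (Y j) z : W →L[ℝ] W).det| ∂μ =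
      ∑ i, μ (Φ i '' A i) := by
  have hch : ∀ i, ∀ x ∈ A i, G.chart x (Φ i) (Ψ i) := fun i x hx => (hL i).chart x (hAN i hx)
  set f : Fin n → W → W := fun j z => z + s • Y j z with hf
  have hE : ∀ j, MeasurableSet (Φ j '' A j) := fun j => meas_image (hA j) (hch j)
  have hder : ∀ j, ∀ z ∈ Φ j '' A j,
      HasFDerivWithinAt (f j) (1 + s • fderiv ℝ (Y j) z : W →L[ℝ] W) (Φ j '' A j) z := by
    rintro j _ ⟨x, hx, rfl⟩
    exact ((hasFDerivAt_id _).add (((hL j).diff x (hAN j hx)).const_smul s)).hasFDerivWithinAt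
  have hval : ∀ j, ∀ x ∈ A j, f j (Φ j x) = Φ j (Fs s x) := fun j x hx =>
    ((hL j).eq x (hAN j hx) s (hs j)).symm
  have hchF : ∀ j, ∀ x ∈ A j, G.chart (Fs s x) (Φ j) (Ψ j) := fun j x hx =>
    (hL j).ch2 x (hAN j hx) s (hs j)
  have hinj : ∀ j, InjOn (f j) (Φ j '' A j) := by
    rintro j _ ⟨a, ha, rfl⟩ _ ⟨b, hb, rfl⟩ hab
    rw [hval j a ha, hval j b hb] at hab
    have := injOn_dom (hchF j a ha) (hchF j b hb) hab
    rw [hbij.1 this]
  have himg : ∀ j, Φ j '' (Fs s '' A j) = f j '' (Φ j '' A j) := by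
    intro j
    rw [image_image, image_image]
    exact image_congr fun x hx => (hval j x hx).symm
  have hchT : ∀ j, ∀ x ∈ Fs s '' A j, G.chart x (Φ j) (Ψ j) := by
    rintro j _ ⟨x, hx, rfl⟩
    exact hchF j x hx
  have hTm : ∀ j, MeasurableSet (Fs s '' A j) := by
    intro j
    have h1 : Fs s '' A j = {x | G.chart x (Φ j) (Ψ j) ∧ Φ j x ∈ f j '' (Φ j '' A j)} := by
      ext x
      constructor
      · intro hx
        exact ⟨hchT j x hx, by rw [← himg]; exact mem_image_of_mem _ hx⟩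
      · rintro ⟨h2, h3⟩
        rw [← himg] at h3
        obtain ⟨x', hx', he⟩ := h3
        rwa [← injOn_dom (hchT j x' hx') h2 he]
    rw [h1]
    exact meas_preim (measurable_image_of_fderivWithin (hE j) (hder j) (hinj j))
  rw [← mass_sum μ hA hch hTm ?_ ?_]
  · refine Finset.sum_congr rfl fun j _ => ?_
    rw [mass_chart μ hA hch hd hc (hTm j) (hchT j), himg]
    exact lintegral_abs_det_fderiv_eq_addHaar_image μ (hE j) (hder j) (hinj j)
  · rintro i j _ ⟨a, ha, rfl⟩ ⟨b, hb, he⟩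
    rw [hbij.1 he] at hb
    exact hd i j a ha hb
  · intro x
    obtain ⟨a, rfl⟩ := hbij.2 x
    obtain ⟨i, hi⟩ := hc a
    exact ⟨i, a, hi, rfl⟩

end

variable {W : Type*} [NormedAddCommGroup W] [NormedSpace ℝ W] [FiniteDimensional ℝ W]
  {F : Type*} [NormedAddCommGroup F] [InnerProductSpace ℝ F]
  {M : Type*} [TopologicalSpace M] {B : Form W} {G : GX M B (0 : ℝ)} {ξ : M → F}
  {H : M → (M → W) → Set W}

theorem ParH.false [CompactSpace M] [T2Space M] [hne : Nonempty M] (hp : ParH G ξ H) : False := by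
  classical
  have : ProperSpace W := FiniteDimensional.proper ℝ W
  let _ : MeasurableSpace W := borel W
  have : BorelSpace W := ⟨rfl⟩
  let _ : MeasurableSpace M := borel M
  have : BorelSpace M := ⟨rfl⟩
  set μ : Measure W := Measure.addHaar with hμ
  obtain ⟨Fs, hF⟩ := hp.exists_map
  choose φ ψ y R δ N hx hL using hp.exists_locD hF
  obtain ⟨t, ht⟩ := CompactSpace.elim_nhds_subcover N
    (fun x => (hL x).op.mem_nhds (hx x))
  set n := t.card with hn
  set e : Fin n ≃ t := t.equivFin.symm with he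
  have hcN : ∀ x, ∃ i : Fin n, x ∈ N (e i) := by
    intro x
    have h4 : x ∈ ⋃ x ∈ t, N x := by rw [ht]; trivial
    obtain ⟨a, ha, hxa⟩ := mem_iUnion₂.1 h4
    refine ⟨e.symm ⟨a, ha⟩, ?_⟩
    rw [Equiv.apply_symm_apply]
    exact hxa
  obtain ⟨A, hAm, hAN, hd, hc⟩ := exists_disj (fun i : Fin n => N (e i))
    (fun i => (hL _).op.measurableSet) hcN
  have hch : ∀ i, ∀ x ∈ A i, G.chart x (φ (e i)) (ψ (e i)) :=
    fun i x hx => (hL _).chart x (hAN i hx)
  set V : ℝ≥0∞ := ∑ i, μ (φ (e i) '' A i) with hV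
  have hVtop : V ≠ ∞ := by
    refine ENNReal.sum_ne_top.2 fun i _ => ?_
    have h1 : φ (e i) '' A i ⊆ Metric.closedBall 0 (R (e i)) := by
      rintro _ ⟨x, hx, rfl⟩
      simpa using (hL _).bd x (hAN i hx)
    exact ((measure_mono h1).trans_lt (isCompact_closedBall _ _).measure_lt_top).ne
  have hV0 : V ≠ 0 := by
    obtain ⟨x₀⟩ := hne
    obtain ⟨φ₀, ψ₀, h₀⟩ := G.exists_chart x₀
    have hop : IsOpen {x | G.chart x φ₀ ψ₀} := isOpen_dom
    have h1 := mass_chart μ hAm hch hd hc hop.measurableSet (fun x hx => hx)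
    have h2 : 0 < μ (φ₀ '' {x | G.chart x φ₀ ψ₀}) :=
      (isOpen_image0 hop fun x hx => hx).measure_pos μ ⟨φ₀ x₀, x₀, h₀, rfl⟩
    intro h3
    rw [hV, Finset.sum_eq_zero_iff] at h3
    have h4 : mass μ (fun i : Fin n => φ (e i)) A {x | G.chart x φ₀ ψ₀} = 0 := by
      refine Finset.sum_eq_zero fun i hi => ?_
      exact measure_mono_null (image_mono inter_subset_right) (h3 i hi)
    rw [h1] at h4
    exact h2.ne' h4
  have hbij := hp.bij hF
  have hδ : ∀ᶠ s : ℝ in 𝓝 0, ∀ i : Fin n, |s| < δ (e i) := by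
    refine eventually_all.2 fun i => ?_
    have h1 : Tendsto (fun s : ℝ => |s|) (𝓝 0) (𝓝 |(0 : ℝ)|) := continuous_abs.tendsto 0
    rw [abs_zero] at h1
    exact h1.eventually (gt_mem_nhds (hL _).pos)
  obtain ⟨ε, hε, hε'⟩ := Metric.eventually_nhds_iff.1 (hbij.and hδ)
  -- integrals for small parameters
  have hint : ∀ s : ℝ, |s| < ε → (∀ i : Fin n, Integrable
      (fun z => (1 + s • fderiv ℝ (y (e i)) z : W →L[ℝ] W).det) (μ.restrict (φ (e i) '' A i))) ∧
      ∑ i : Fin n, ∫ z in φ (e i) '' A i, (1 + s • fderiv ℝ (y (e i)) z : W →L[ℝ] W).det ∂μ =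
        V.toReal := by
    intro s hs
    obtain ⟨h1, h2⟩ := hε' (y := s) (by simpa [Real.dist_eq] using hs)
    have h3 := volume_eq μ (fun i : Fin n => hL (e i)) hAm hAN hd hc h2 h1
    have hE : ∀ i : Fin n, MeasurableSet (φ (e i) '' A i) := fun i => meas_image (hAm i) (hch i)
    have hmeas : ∀ i : Fin n,
        Measurable fun z => (1 + s • fderiv ℝ (y (e i)) z : W →L[ℝ] W).det := by
      intro i
      have h4 : Measurable fun z => (1 + s • fderiv ℝ (y (e i)) z : W →L[ℝ] W) :=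
        ((measurable_fderiv ℝ (y (e i))).const_smul s).const_add 1
      exact ContinuousLinearMap.continuous_det.measurable.comp h4
    have hpos : ∀ i : Fin n, ∀ z ∈ φ (e i) '' A i,
        0 < (1 + s • fderiv ℝ (y (e i)) z : W →L[ℝ] W).det := by
      rintro i _ ⟨x, hx, rfl⟩
      exact (hL _).dpos x (hAN i hx) s (h2 i)
    have hfin : ∀ i : Fin n, ∫⁻ z in φ (e i) '' A i,
        ENNReal.ofReal |(1 + s • fderiv ℝ (y (e i)) z : W →L[ℝ] W).det| ∂μ ≠ ∞ := by
      intro i h4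
      refine hVtop ?_
      rw [hV, ← h3]
      exact ENNReal.sum_eq_top.2 ⟨i, Finset.mem_univ _, h4⟩
    refine ⟨fun i => ⟨(hmeas i).aestronglyMeasurable, ?_⟩, ?_⟩
    · rw [hasFiniteIntegral_iff_norm]
      exact lt_top_iff_ne_top.2 (hfin i)
    · rw [hV, ← h3, ENNReal.toReal_sum fun i _ => hfin i]
      refine Finset.sum_congr rfl fun i _ => ?_
      rw [integral_eq_lintegral_of_nonneg_ae ?_ (hmeas i).aestronglyMeasurable]
      · congr 1
        refine setLIntegral_congr_fun (hE i) fun z hz => ?_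
        rw [abs_of_pos (hpos i z hz)]
      · exact (ae_restrict_iff' (hE i)).2 (Eventually.of_forall fun z hz => (hpos i z hz).le)
  -- interpolation
  set node : ℕ → ℝ := fun k => ε / (k + 2) with hnode
  have hnode1 : ∀ k, |node k| < ε := by
    intro k
    have h1 : (0 : ℝ) < k + 2 := by positivity
    rw [hnode]
    simp only
    rw [abs_of_pos (div_pos hε h1), div_lt_iff₀ h1]
    nlinarith
  have hnode2 : Set.InjOn node (Finset.range (Module.finrank ℝ W + 1)) := by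
    intro a _ b _ hab
    rw [hnode] at hab
    simp only at hab
    have h1 : (0 : ℝ) < a + 2 := by positivity
    have h2 : (0 : ℝ) < b + 2 := by positivity
    rw [div_eq_div_iff h1.ne' h2.ne'] at hab
    have h3 := mul_left_cancel₀ hε.ne' hab
    have h4 : (a : ℝ) = b := by linarith
    exact_mod_cast h4
  obtain ⟨c, hc1, hc2⟩ := det_interp (W := W) node hnode2
  have hfinal : V.toReal = 0 := by
    calc V.toReal = ∑ k ∈ Finset.range (Module.finrank ℝ W + 1), c k * V.toReal := by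
          rw [← Finset.sum_mul, hc1, one_mul]
      _ = ∑ k ∈ Finset.range (Module.finrank ℝ W + 1), ∑ i : Fin n,
            ∫ z in φ (e i) '' A i,
              c k * (1 + node k • fderiv ℝ (y (e i)) z : W →L[ℝ] W).det ∂μ := by
          refine Finset.sum_congr rfl fun k _ => ?_
          rw [← (hint (node k) (hnode1 k)).2, Finset.mul_sum]
          refine Finset.sum_congr rfl fun i _ => ?_
          rw [integral_const_mul]
      _ = ∑ i : Fin n, ∫ z in φ (e i) '' A i, (1 + fderiv ℝ (y (e i)) z).det ∂μ := by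
          rw [Finset.sum_comm]
          refine Finset.sum_congr rfl fun i _ => ?_
          rw [← integral_finsetSum]
          · refine integral_congr_ae (Eventually.of_forall fun z => ?_)
            exact (hc2 (fderiv ℝ (y (e i)) z)).symm
          · exact fun k _ => ((hint (node k) (hnode1 k)).1 i).const_mul _
      _ = 0 := by
          refine Finset.sum_eq_zero fun i _ => ?_
          refine setIntegral_eq_zero_of_forall_eq_zero ?_
          rintro _ ⟨x, hx, rfl⟩
          exact (hL _).zero x (hAN i hx)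
  rcases (ENNReal.toReal_eq_zero_iff V).1 hfinal with h | h
  · exact hV0 h
  · exact hVtop h

end Pool.H84.KL

namespace Pool.H1.Lor
namespace GX

open Filter Topology Set MeasureTheory

variable {W : Type*} [NormedAddCommGroup W] [NormedSpace ℝ W]
  {F : Type*} [NormedAddCommGroup F] [InnerProductSpace ℝ F]
  {M : Type*} [TopologicalSpace M] {ξ : M → F}

/-- GH: no parallel field of affine hyperplanes on a compact flat manifold. -/
theorem no_parallel_hyperplanes [CompactSpace M] [T2Space M] [Nonempty M]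
    [FiniteDimensional ℝ W] {B : Form W} {G : GX M B 0} (hξ : G.Smooth ξ)
    (himm : G.Immersion ξ) (H : M → (M → W) → Set W)
    (h1 : ∀ {x φ ψ}, G.chart x φ ψ → ∀ᶠ x' in 𝓝 x, H x' φ = H x φ)
    (h2 : ∀ {x φ ψ φ' ψ'}, G.chart x φ ψ → G.chart x φ' ψ' → ∀ A : Iso B.b (0 : ℝ),
      (∀ᶠ x' in 𝓝 x, φ' x' = A.act (φ x')) → H x φ' = A.act '' H x φ)
    (h3 : ∀ {x φ ψ}, G.chart x φ ψ → ∃ (l : W →L[ℝ] ℝ) (c : ℝ), l ≠ 0 ∧
      H x φ = {z | l z = c}) : False :=
  Pool.H84.KL.ParH.false ⟨hξ, himm, h1, h2, h3⟩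

end GX
end Pool.H1.Lor
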