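import Pool.Agent.H84.KL.Iso
import Pool.Agent.H1.CK.Defs

/-!
# Sections with bounded multiplicity have images of bounded volume
-/

namespace Pool.H84.KL

open Filter Topology Set MeasureTheory
open Pool.H1.Lor
open scoped ENNReal

variable {W : Type*} [NormedAddCommGroup W] [NormedSpace ℝ W]
  {M : Type*} [TopologicalSpace M] {B : Form W} {K : ℝ} {G : GX M B K}

theorem nrm_nrm' {b : W →L[ℝ] W →L[ℝ] ℝ} {K : ℝ} {z : W} (hz : 0 < K * b z z + dl K) :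
    nrm b K (nrm b K z) = nrm b K z := nrm_onQ (onQ_nrm hz)

/-- A section is continuous and, in a fixed chart, it is an isometry composed with the
normalisation. -/
theorem sec_local {f : W → M} {z : W} (hf : G.IsSec f z) {φ : M → W} {ψ : W → M}
    (h : G.chart (f z) φ ψ) : ContinuousAt f z ∧
      ∃ A : Iso B.b K, ∀ᶠ z' in 𝓝 z, φ (f z') = A.act (nrm B.b K z') := by
  obtain ⟨hz, φ', ψ', h', hφ, hfe⟩ := hf
  have hz' : 0 < K * B.b z z + dl K := hz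
  have hpos : ∀ᶠ z' in 𝓝 z, 0 < K * B.b z' z' + dl K :=
    (continuous_form.tendsto z).eventually (lt_mem_nhds hz')
  have t1 : Tendsto (nrm B.b K) (𝓝 z) (𝓝 (φ' (f z))) := by
    rw [hφ]; exact continuousAt_nrm hz'
  have t2 : Tendsto (fun z' => ψ' (nrm B.b K z')) (𝓝 z) (𝓝 (f z)) :=
    (G.tendsto_inv h').comp t1
  have t3 : ContinuousAt f z := t2.congr' (hfe.mono fun _ h => h.symm)
  refine ⟨t3, ?_⟩
  obtain ⟨A, hA⟩ := G.rigid h' h
  refine ⟨A, ?_⟩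
  filter_upwards [hfe, t1.eventually (G.right_inv h'), t3.eventually hA, hpos] with z' h1 h2 h3 h4
  rw [h3, h1, h2.1, nrm_nrm' h4]

/-- The set where the section `f` lands in `O` and is expressed by `A`. -/
def Gs (G : GX M B K) (φ : M → W) (O : Set M) (f : W → M) (A : Iso B.b K) : Set W :=
  {z | z ∈ Om B.b K ∧ ∀ᶠ z' in 𝓝 z, f z' ∈ O ∧ φ (f z') = A.act (nrm B.b K z')}

theorem isOpen_Om : IsOpen (Om B.b K) := isOpen_lt continuous_const continuous_form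

theorem isOpen_Gs (φ : M → W) (O : Set M) (f : W → M) (A : Iso B.b K) :
    IsOpen (Gs G φ O f A) :=
  isOpen_Om.inter isOpen_setOfPred_eventually_nhds

theorem Gs_disj {φ : M → W} {O : Set M} {f : W → M} {A A' : Iso B.b K} {z : W}
    (h : z ∈ Gs G φ O f A) (h' : z ∈ Gs G φ O f A') : A = A' := by
  refine iso_eq_of_nrm (z := z) h.1 ?_
  filter_upwards [h.2, h'.2] with z' h1 h2
  rw [← h1.2, ← h2.2]

theorem exists_Gs {φ : M → W} {ψ : W → M} {O : Set M} (hO : IsOpen O) {f : W → M} {z : W}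
    (hf : G.IsSec f z) (hz : f z ∈ O) (h : G.chart (f z) φ ψ) :
    ∃ A : Iso B.b K, z ∈ Gs G φ O f A := by
  obtain ⟨h1, A, hA⟩ := sec_local hf h
  refine ⟨A, hf.1, ?_⟩
  filter_upwards [hA, h1.eventually (hO.mem_nhds hz)] with z' h2 h3
  exact ⟨h3, h2⟩

variable [FiniteDimensional ℝ W] [MeasurableSpace W] [BorelSpace W]

theorem piece_bound (μ : Measure W) [μ.IsAddHaarMeasure] {φ : M → W} {ψ : W → M} {O : Set M}
    {R : ℝ} (hO : IsOpen O) (hφ : ∀ x ∈ O, G.chart x φ ψ ∧ ‖φ x‖ ≤ R) (m : ℕ)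
    {ι : Type} [Fintype ι] (f : ι → W → M) (S : ι → Set W)
    (hS : ∀ i, MeasurableSet (S i)) (hf : ∀ i, ∀ z ∈ S i, G.IsSec (f i) z ∧ nf B.b K z ≤ 2)
    (hm : ∀ (x : M) (ρ : ℝ) (T : Finset (ι × W)),
        (∀ p ∈ T, p.2 ∈ S p.1 ∧ f p.1 p.2 = x ∧ nf B.b K p.2 = ρ) → T.card ≤ m) :
    ∑ i, μ (S i ∩ {z | f i z ∈ O}) ≤ m * μ (Metric.closedBall 0 (2 * R)) := by
  classical
  have : ProperSpace W := FiniteDimensional.proper ℝ W
  set 𝒜 : ι → Set (Iso B.b K) := fun i => {A | (Gs G φ O (f i) A).Nonempty} with h𝒜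
  have hcount : ∀ i, (𝒜 i).Countable := by
    intro i
    have hd : (𝒜 i).PairwiseDisjoint fun A => Gs G φ O (f i) A := by
      intro A _ A' _ hne
      rw [Function.onFun, Set.disjoint_left]
      intro z hz hz'
      exact hne (Gs_disj hz hz')
    exact hd.countable_of_isOpen (fun A _ => isOpen_Gs φ O (f i) A) (fun A hA => hA)
  have hc : ∀ i, Countable (𝒜 i) := fun i => (hcount i).to_subtype
  set E : (Σ i, 𝒜 i) → Set W := fun ξ => ξ.2.1.act '' (S ξ.1 ∩ Gs G φ O (f ξ.1) ξ.2.1) with hE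
  have hEm : ∀ ξ, MeasurableSet (E ξ) := by
    intro ξ
    have h1 : E ξ = ξ.2.1.inv ⁻¹' (S ξ.1 ∩ Gs G φ O (f ξ.1) ξ.2.1) := by
      ext w
      constructor
      · rintro ⟨z, hz, rfl⟩
        simpa using hz
      · intro hw
        exact ⟨ξ.2.1.inv w, hw, by simp⟩
    rw [h1]
    exact ξ.2.1.continuous_inv.measurable ((hS _).inter (isOpen_Gs _ _ _ _).measurableSet)
  have h1 : ∀ i, μ (S i ∩ {z | f i z ∈ O}) ≤ ∑' A : 𝒜 i, μ (E ⟨i, A⟩) := by
    intro i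
    have h2 : S i ∩ {z | f i z ∈ O} ⊆ ⋃ A : 𝒜 i, (S i ∩ Gs G φ O (f i) A.1) := by
      rintro z ⟨hz1, hz2⟩
      obtain ⟨A, hA⟩ := exists_Gs hO (hf i z hz1).1 hz2 (hφ _ hz2).1
      exact mem_iUnion.2 ⟨⟨A, ⟨z, hA⟩⟩, hz1, hA⟩
    refine (measure_mono h2).trans ((measure_iUnion_le _).trans ?_)
    refine ENNReal.tsum_le_tsum fun A => ?_
    rw [hE]
    simp only
    rw [measure_act B μ A.1]
  have h3 : ∑ i, μ (S i ∩ {z | f i z ∈ O}) ≤ ∑' ξ : (Σ i, 𝒜 i), μ (E ξ) := by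
    rw [ENNReal.tsum_sigma', tsum_fintype]
    exact Finset.sum_le_sum fun i _ => h1 i
  refine h3.trans ?_
  have h4 : ∀ w, ∑' ξ : (Σ i, 𝒜 i), (E ξ).indicator (1 : W → ℝ≥0∞) w ≤
      (Metric.closedBall (0 : W) (2 * R)).indicator (fun _ => (m : ℝ≥0∞)) w := by
    intro w
    have hkey : ∀ ξ : (Σ i, 𝒜 i), w ∈ E ξ → ξ.2.1.inv w ∈ S ξ.1 ∧
        ξ.2.1.inv w ∈ Gs G φ O (f ξ.1) ξ.2.1 ∧
        f ξ.1 (ξ.2.1.inv w) = ψ (nrm B.b K w) ∧ nf B.b K (ξ.2.1.inv w) = nf B.b K w ∧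
        ‖w‖ ≤ 2 * R := by
      rintro ξ ⟨z, ⟨hz1, hz2⟩, rfl⟩
      rw [Iso.inv_act]
      have h5 := hz2.2.self_of_nhds
      have h6 := hφ _ h5.1
      refine ⟨hz1, hz2, ?_, (ξ.2.1.nf_act z).symm, ?_⟩
      · rw [ξ.2.1.nrm_act, ← h5.2, G.left_inv h6.1]
      · have h7 : 0 < nf B.b K z := nf_pos hz2.1
        have h8 : ξ.2.1.act z = nf B.b K z • φ (f ξ.1 z) := by
          rw [h5.2, ← ξ.2.1.nrm_act, nrm, ξ.2.1.nf_act, smul_smul, mul_inv_cancel₀ h7.ne',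
            one_smul]
        rw [h8, norm_smul, Real.norm_of_nonneg h7.le]
        exact mul_le_mul (hf _ z hz1).2 h6.2 (norm_nonneg _) (by norm_num)
    by_cases hw : ‖w‖ ≤ 2 * R
    · rw [indicator_of_mem (by simpa using hw)]
      rw [ENNReal.tsum_eq_iSup_sum]
      refine iSup_le fun s => ?_
      have e1 : ∑ ξ ∈ s, (E ξ).indicator (1 : W → ℝ≥0∞) w =
          ((s.filter fun ξ => w ∈ E ξ).card : ℝ≥0∞) := by
        rw [Finset.card_filter, Nat.cast_sum]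
        refine Finset.sum_congr rfl fun ξ _ => ?_
        by_cases h : w ∈ E ξ <;> simp [h]
      rw [e1]
      have hinj : Set.InjOn (fun ξ : (Σ i, 𝒜 i) => (ξ.1, ξ.2.1.inv w))
          (s.filter fun ξ => w ∈ E ξ) := by
        rintro ⟨i, A⟩ h1 ⟨i', A'⟩ h2 h3
        simp only [Finset.coe_filter, mem_ofPred_eq] at h1 h2
        simp only [Prod.mk.injEq] at h3
        obtain ⟨rfl, h3⟩ := h3
        have k1 := (hkey _ h1.2).2.1
        have k2 := (hkey _ h2.2).2.1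
        simp only at k1 k2
        rw [h3] at k1
        have := Gs_disj k1 k2
        rw [Subtype.ext this]
      rw [← Finset.card_image_of_injOn hinj]
      norm_cast
      refine hm (ψ (nrm B.b K w)) (nf B.b K w) _ ?_
      intro p hp
      obtain ⟨ξ, hξ, rfl⟩ := Finset.mem_image.1 hp
      have k := hkey ξ (Finset.mem_filter.1 hξ).2
      exact ⟨k.1, k.2.2.1, k.2.2.2.1⟩
    · rw [indicator_of_notMem (by simpa using hw)]
      rw [nonpos_iff_eq_zero, ENNReal.tsum_eq_zero]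
      intro ξ
      refine indicator_of_notMem (fun h => hw ?_) _
      exact (hkey ξ h).2.2.2.2
  calc ∑' ξ : (Σ i, 𝒜 i), μ (E ξ)
      = ∑' ξ : (Σ i, 𝒜 i), ∫⁻ w, (E ξ).indicator (1 : W → ℝ≥0∞) w ∂μ := by
        refine tsum_congr fun ξ => ?_
        rw [lintegral_indicator_one (hEm ξ)]
    _ = ∫⁻ w, ∑' ξ : (Σ i, 𝒜 i), (E ξ).indicator (1 : W → ℝ≥0∞) w ∂μ := by
        rw [lintegral_tsum]
        intro ξ
        exact (measurable_one.indicator (hEm ξ)).aemeasurable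
    _ ≤ ∫⁻ w, (Metric.closedBall (0 : W) (2 * R)).indicator (fun _ => (m : ℝ≥0∞)) w ∂μ :=
        lintegral_mono h4
    _ = m * μ (Metric.closedBall 0 (2 * R)) := by
        rw [lintegral_indicator_const Metric.isClosed_closedBall.measurableSet]

end Pool.H84.KL

namespace Pool.H1.Lor
namespace GX

open Filter Topology Set MeasureTheory
open scoped ENNReal

variable {W : Type*} [NormedAddCommGroup W] [NormedSpace ℝ W]
  {M : Type*} [TopologicalSpace M] {B : Form W} {K : ℝ} {G : GX M B K}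

/-- VL: images of sections with multiplicity at most `m` have bounded volume. -/
theorem vol_lemma [CompactSpace M] [T2Space M] [FiniteDimensional ℝ W] [MeasurableSpace W]
    [BorelSpace W] (μ : Measure W) [μ.IsAddHaarMeasure] (m : ℕ) :
    ∃ C : ℝ≥0∞, C ≠ ∞ ∧ ∀ (ι : Type) [Fintype ι] (f : ι → W → M) (S : ι → Set W),
      (∀ i, MeasurableSet (S i)) → (∀ i, ∀ z ∈ S i, G.IsSec (f i) z ∧ nf B.b K z ≤ 2) →
      (∀ (x : M) (ρ : ℝ) (T : Finset (ι × W)),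
        (∀ p ∈ T, p.2 ∈ S p.1 ∧ f p.1 p.2 = x ∧ nf B.b K p.2 = ρ) → T.card ≤ m) →
      ∑ i, μ (S i) ≤ C := by
  classical
  have : ProperSpace W := FiniteDimensional.proper ℝ W
  have h1 : ∀ x : M, ∃ (O : Set M) (φ : M → W) (ψ : W → M) (R : ℝ), IsOpen O ∧ x ∈ O ∧
      ∀ x' ∈ O, G.chart x' φ ψ ∧ ‖φ x'‖ ≤ R := by
    intro x
    obtain ⟨φ, ψ, h⟩ := G.exists_chart x
    have h2 : ∀ᶠ x' in 𝓝 x, ‖φ x'‖ ≤ ‖φ x‖ + 1 := by
      have := (G.cont h).norm.eventually (gt_mem_nhds (show ‖φ x‖ < ‖φ x‖ + 1 by linarith))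
      exact this.mono fun x' h => h.le
    obtain ⟨O, hO1, hO2, hO3⟩ := eventually_nhds_iff.1 ((G.nhds h).and h2)
    exact ⟨O, φ, ψ, ‖φ x‖ + 1, hO2, hO3, fun x' hx' => hO1 x' hx'⟩
  choose O φ ψ R hO hx hc using h1
  obtain ⟨t, ht⟩ := CompactSpace.elim_nhds_subcover O (fun x => (hO x).mem_nhds (hx x))
  refine ⟨∑ x ∈ t, m * μ (Metric.closedBall 0 (2 * R x)), ?_, ?_⟩
  · refine ENNReal.sum_ne_top.2 fun x _ => ?_
    exact ENNReal.mul_ne_top (ENNReal.natCast_ne_top m)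
      (isCompact_closedBall _ _).measure_lt_top.ne
  · intro ι _ f S hS hf hm
    have h2 : ∀ i, μ (S i) ≤ ∑ x ∈ t, μ (S i ∩ {z | f i z ∈ O x}) := by
      intro i
      have h3 : S i ⊆ ⋃ x ∈ t, (S i ∩ {z | f i z ∈ O x}) := by
        intro z hz
        have h4 : f i z ∈ ⋃ x ∈ t, O x := by rw [ht]; trivial
        obtain ⟨x, hx, hx'⟩ := mem_iUnion₂.1 h4
        exact mem_iUnion₂.2 ⟨x, hx, hz, hx'⟩
      exact (measure_mono h3).trans (measure_biUnion_finset_le t _)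
    calc ∑ i, μ (S i) ≤ ∑ i, ∑ x ∈ t, μ (S i ∩ {z | f i z ∈ O x}) :=
          Finset.sum_le_sum fun i _ => h2 i
      _ = ∑ x ∈ t, ∑ i, μ (S i ∩ {z | f i z ∈ O x}) := Finset.sum_comm
      _ ≤ _ := Finset.sum_le_sum fun x _ =>
          Pool.H84.KL.piece_bound μ (hO x) (hc x) m f S hS hf hm

end GX
end Pool.H1.Lor
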