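import Pool.Agent.H1.Lor.Basic

/-!
# Isometries of the ambient form preserve volume; cones over subsets of the space form
-/

namespace Pool.H84.KL

open Filter Topology Set MeasureTheory
open Pool.H1.Lor

variable {W : Type*} [NormedAddCommGroup W] [NormedSpace ℝ W]

/-- The form as a linear map to the dual space. -/
noncomputable def flat (B : Form W) : W →ₗ[ℝ] Module.Dual ℝ W where
  toFun x := (B.b x : W →ₗ[ℝ] ℝ)
  map_add' x y := by ext w; simp
  map_smul' c x := by ext w; simp

theorem flat_apply (B : Form W) (x w : W) : flat B x w = B.b x w := rfl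

theorem flat_injective (B : Form W) : Function.Injective (flat B) := by
  rw [← LinearMap.ker_eq_bot, LinearMap.ker_eq_bot']
  intro x hx
  refine B.nondeg x fun y => ?_
  have := congrArg (fun f => f y) hx
  simpa [flat_apply] using this

variable [FiniteDimensional ℝ W]

/-- The form as an isomorphism to the dual space. -/
noncomputable def flatE (B : Form W) : W ≃ₗ[ℝ] Module.Dual ℝ W :=
  LinearEquiv.ofInjectiveOfFinrankEq (flat B) (flat_injective B) (Subspace.dual_finrank_eq).symm

theorem flatE_apply (B : Form W) (x w : W) : flatE B x w = B.b x w := by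
  rfl

theorem det_sq (B : Form W) {K : ℝ} (A : Iso B.b K) :
    LinearMap.det ((A.L : W →L[ℝ] W) : W →ₗ[ℝ] W) ^ 2 = 1 := by
  set L : W →ₗ[ℝ] W := ((A.L : W →L[ℝ] W) : W →ₗ[ℝ] W) with hL
  have h1 : ((flatE B).symm.toLinearMap ∘ₗ L.dualMap ∘ₗ (flatE B).toLinearMap) ∘ₗ L
      = LinearMap.id := by
    ext x
    simp only [LinearMap.comp_apply, LinearEquiv.coe_coe, LinearMap.id_apply]
    rw [LinearEquiv.symm_apply_eq]
    ext y
    rw [LinearMap.dualMap_apply, flatE_apply, flatE_apply]
    exact A.isom x y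
  have h2 := congrArg LinearMap.det h1
  rw [LinearMap.det_comp, LinearMap.det_id] at h2
  have h3 : LinearMap.det ((flatE B).symm.toLinearMap ∘ₗ L.dualMap ∘ₗ (flatE B).toLinearMap)
      = LinearMap.det L := by
    have := LinearMap.det_conj L.dualMap (flatE B).symm
    rw [LinearEquiv.symm_symm] at this
    rw [this, LinearMap.det_dualMap]
  rw [h3] at h2
  rw [pow_two]
  exact h2

theorem abs_det (B : Form W) {K : ℝ} (A : Iso B.b K) :
    |(A.L : W →L[ℝ] W).det| = 1 := by
  have h := det_sq B A
  have h' : |LinearMap.det ((A.L : W →L[ℝ] W) : W →ₗ[ℝ] W)| ^ 2 = 1 := by rw [sq_abs, h]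
  have h2 : |LinearMap.det ((A.L : W →L[ℝ] W) : W →ₗ[ℝ] W)| = 1 := by
    have h3 := abs_nonneg (LinearMap.det ((A.L : W →L[ℝ] W) : W →ₗ[ℝ] W))
    nlinarith
  exact h2

end Pool.H84.KL
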