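import Pool.Agent.H84.KL.Iso

/-!
# Flat structures: chart domains, measurability, invariance of the mass
-/

namespace Pool.H84.KL

open Filter Topology Set MeasureTheory
open Pool.H1.Lor
open scoped ENNReal

variable {W : Type*} [NormedAddCommGroup W] [NormedSpace ℝ W]
  {M : Type*} [TopologicalSpace M] {B : Form W} {G : GX M B (0 : ℝ)}
  {x : M} {φ φ' : M → W} {ψ ψ' : W → M}

theorem good0 (h : G.chart x φ ψ) : ∀ᶠ z in 𝓝 (φ x), G.chart (ψ z) φ ψ ∧ φ (ψ z) = z := by
  filter_upwards [G.eventually_good h] with z hz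
  rw [nrm_zero] at hz
  exact ⟨hz.1, hz.2.1⟩

theorem map_nhds0 (h : G.chart x φ ψ) : map φ (𝓝 x) = 𝓝 (φ x) := by
  refine le_antisymm (G.cont h) fun s hs => ?_
  filter_upwards [good0 h, (G.tendsto_inv h).eventually hs] with z h1 h2
  rw [← h1.2]
  exact h2

theorem isOpen_dom : IsOpen {x | G.chart x φ ψ} :=
  isOpen_iff_mem_nhds.2 fun _ hx => G.nhds hx

theorem contOn_dom : ContinuousOn φ {x | G.chart x φ ψ} :=
  fun _ hx => (G.cont hx).continuousWithinAt

theorem contOn_inv : ContinuousOn ψ (φ '' {x | G.chart x φ ψ}) := by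
  rintro _ ⟨x, hx, rfl⟩
  exact (G.cont_inv hx).continuousWithinAt

theorem injOn_dom : InjOn φ {x | G.chart x φ ψ} := by
  intro x hx y hy hxy
  rw [← G.left_inv hx, hxy, G.left_inv hy]

theorem isOpen_image0 {U : Set M} (hU : IsOpen U) (h : ∀ x ∈ U, G.chart x φ ψ) :
    IsOpen (φ '' U) := by
  rw [isOpen_iff_mem_nhds]
  rintro _ ⟨x, hx, rfl⟩
  rw [← map_nhds0 (h x hx)]
  exact image_mem_map (hU.mem_nhds hx)

section meas
variable [MeasurableSpace W] [BorelSpace W] [MeasurableSpace M] [BorelSpace M]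

theorem meas_image {S : Set M} (hS : MeasurableSet S) (h : ∀ x ∈ S, G.chart x φ ψ) :
    MeasurableSet (φ '' S) := by
  set D : Set W := φ '' {x | G.chart x φ ψ} with hD
  have hDo : IsOpen D := isOpen_image0 isOpen_dom fun x hx => hx
  have h1 : φ '' S = Subtype.val '' ((fun z : D => ψ z) ⁻¹' S) := by
    ext z
    constructor
    · rintro ⟨x, hx, rfl⟩
      refine ⟨⟨φ x, x, h x hx, rfl⟩, ?_, rfl⟩
      simpa [G.left_inv (h x hx)] using hx
    · rintro ⟨⟨_, x, hx, rfl⟩, h2, rfl⟩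
      simp only [mem_preimage, G.left_inv hx] at h2
      exact ⟨x, h2, rfl⟩
  rw [h1]
  refine hDo.measurableSet.subtype_image ?_
  exact (continuousOn_iff_continuous_domRestrict.1 contOn_inv).measurable hS

theorem meas_preim {E : Set W} (hE : MeasurableSet E) :
    MeasurableSet {x | G.chart x φ ψ ∧ φ x ∈ E} := by
  have h1 : {x | G.chart x φ ψ ∧ φ x ∈ E} =
      Subtype.val '' ((fun x : {x | G.chart x φ ψ} => φ x) ⁻¹' E) := by
    ext x
    constructor
    · rintro ⟨h1, h2⟩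
      exact ⟨⟨x, h1⟩, h2, rfl⟩
    · rintro ⟨⟨x, h1⟩, h2, rfl⟩
      exact ⟨h1, h2⟩
  rw [h1]
  refine isOpen_dom.measurableSet.subtype_image ?_
  exact (continuousOn_iff_continuous_domRestrict.1 contOn_dom).measurable hE

variable [FiniteDimensional ℝ W]

/-- The mass of a set does not depend on the chart. -/
theorem mass_eq (μ : Measure W) [μ.IsAddHaarMeasure] {S : Set M} (hS : MeasurableSet S)
    (h : ∀ x ∈ S, G.chart x φ ψ) (h' : ∀ x ∈ S, G.chart x φ' ψ') : μ (φ '' S) = μ (φ' '' S) := by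
  have : ProperSpace W := FiniteDimensional.proper ℝ W
  set T : Iso B.b (0 : ℝ) → Set M := fun A =>
    {x | G.chart x φ ψ ∧ G.chart x φ' ψ' ∧ ∀ᶠ x' in 𝓝 x, φ' x' = A.act (φ x')} with hT
  have hTo : ∀ A, IsOpen (T A) := fun A =>
    isOpen_dom.inter (isOpen_dom.inter isOpen_setOfPred_eventually_nhds)
  have hTd : ∀ {A A' x}, x ∈ T A → x ∈ T A' → A = A' := by
    intro A A' x hx hx'
    refine iso_eq_of_act (z := φ x) ?_
    rw [← map_nhds0 hx.1]
    rw [eventually_map]
    filter_upwards [hx.2.2, hx'.2.2] with x' h1 h2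
    rw [← h1, ← h2]
  set 𝒜 : Set (Iso B.b (0 : ℝ)) := {A | (T A).Nonempty} with h𝒜
  have hc : 𝒜.Countable := by
    have hd : 𝒜.PairwiseDisjoint fun A => φ '' T A := by
      intro A _ A' _ hne
      rw [Function.onFun, Set.disjoint_left]
      rintro _ ⟨x, hx, rfl⟩ ⟨x', hx', he⟩
      have : x' = x := injOn_dom hx'.1 hx.1 he
      subst this
      exact hne (hTd hx hx')
    exact hd.countable_of_isOpen (fun A _ => isOpen_image0 (hTo A) fun x hx => hx.1)
      (fun A hA => hA.image φ)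
  have : Countable 𝒜 := hc.to_subtype
  have hcov : S = ⋃ A : 𝒜, (S ∩ T A) := by
    refine subset_antisymm (fun x hx => ?_) (iUnion_subset fun A => inter_subset_left)
    obtain ⟨A, hA⟩ := G.rigid (h x hx) (h' x hx)
    exact mem_iUnion.2 ⟨⟨A, ⟨x, h x hx, h' x hx, hA⟩⟩, hx, h x hx, h' x hx, hA⟩
  have key : ∀ {φ₁ : M → W} {ψ₁ : W → M}, (∀ x ∈ S, G.chart x φ₁ ψ₁) →
      μ (φ₁ '' S) = ∑' A : 𝒜, μ (φ₁ '' (S ∩ T A)) := by
    intro φ₁ ψ₁ h₁
    conv_lhs => rw [hcov, image_iUnion]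
    refine measure_iUnion ?_ fun A =>
      meas_image (hS.inter (hTo _).measurableSet) fun x hx => h₁ x hx.1
    intro A A' hne
    rw [Function.onFun, Set.disjoint_left]
    rintro _ ⟨x, hx, rfl⟩ ⟨x', hx', he⟩
    have : x' = x := injOn_dom (h₁ _ hx'.1) (h₁ _ hx.1) he
    subst this
    exact hne (Subtype.ext (hTd hx.2 hx'.2))
  rw [key h, key h']
  refine tsum_congr fun A => ?_
  rw [← measure_act B μ A.1 (φ '' (S ∩ T A)), image_image]
  congr 1
  refine image_congr fun x hx => ?_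
  exact (hx.2.2.2.self_of_nhds).symm

end meas

end Pool.H84.KL
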