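import Pool.Agent.H84.KL.Fl1
import Pool.Agent.H1.CK.Defs

/-!
# Flat structures: the vector field attached to a parallel field of hyperplanes
-/

namespace Pool.H84.KL

open Filter Topology Set MeasureTheory
open Pool.H1.Lor

section alg
variable {W : Type*} [NormedAddCommGroup W] [NormedSpace ℝ W]
  {F : Type*} [NormedAddCommGroup F] [InnerProductSpace ℝ F]

/-- `z + Y` is the orthogonal projection of `z` to the affine space `H`. -/
def IsY (D : W →L[ℝ] F) (H : Set W) (z Y : W) : Prop :=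
  z + Y ∈ H ∧ ∀ p ∈ H, ∀ q ∈ H, inner ℝ (D Y) (D (p - q)) = 0

theorem IsY.unique {D : W →L[ℝ] F} {H : Set W} {z Y Y' : W} (hD : ∀ w, D w = 0 → w = 0)
    (h : IsY D H z Y) (h' : IsY D H z Y') : Y = Y' := by
  have h1 := h.2 _ h.1 _ h'.1
  have h2 := h'.2 _ h.1 _ h'.1
  have h3 : z + Y - (z + Y') = Y - Y' := by abel
  rw [h3] at h1 h2
  have h4 : inner ℝ (D (Y - Y')) (D (Y - Y')) = 0 := by
    conv_lhs => rw [map_sub D Y Y', inner_sub_left, ← map_sub D Y Y', h1, h2, sub_zero]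
  exact sub_eq_zero.1 (hD _ (inner_self_eq_zero.1 h4))

theorem IsY.act {b : W →L[ℝ] W →L[ℝ] ℝ} {D : W →L[ℝ] F} {H : Set W} {z Y : W}
    (h : IsY D H z Y) (A : Iso b (0 : ℝ)) :
    IsY (D.comp (A.L.symm : W →L[ℝ] W)) (A.act '' H) (A.act z) (A.L Y) := by
  refine ⟨⟨z + Y, h.1, by unfold Iso.act; rw [map_add]; abel⟩, ?_⟩
  rintro _ ⟨p, hp, rfl⟩ _ ⟨q, hq, rfl⟩
  have h1 : A.act p - A.act q = A.L (p - q) := by unfold Iso.act; rw [map_sub]; abel
  rw [h1]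
  simpa using h.2 p hp q hq

variable [FiniteDimensional ℝ W]

/-- The field of projections onto a fixed hyperplane. -/
theorem exists_field {D : W → W →L[ℝ] F} {z₀ : W} (hD : ContDiffAt ℝ 1 D z₀)
    (hinj : ∀ w, D z₀ w = 0 → w = 0) {l : W →L[ℝ] ℝ} (hl : l ≠ 0) (c : ℝ) :
    ∃ y : W → W, ContDiffAt ℝ 1 y z₀ ∧ ∀ᶠ z in 𝓝 z₀, IsY (D z) {p | l p = c} z (y z) := by
  have : CompleteSpace W := FiniteDimensional.complete ℝ W
  set h : W → W →L[ℝ] (W →L[ℝ] ℝ) := fun z =>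
    ((ContinuousLinearMap.compL ℝ W F ℝ).flip (D z)).comp ((innerSL ℝ).comp (D z)) with hh
  have hval : ∀ z v w, h z v w = inner ℝ (D z v) (D z w) := fun z v w => rfl
  have hsm : ContDiffAt ℝ 1 h z₀ := by
    exact ContDiffAt.clm_comp (contDiffAt_const.clm_apply hD) (contDiffAt_const.clm_comp hD)
  have hker : ∀ v, h z₀ v = 0 → v = 0 := by
    intro v hv
    have : h z₀ v v = 0 := by rw [hv]; rfl
    rw [hval] at this
    exact hinj v (inner_self_eq_zero.1 this)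
  have hfr : Module.finrank ℝ W = Module.finrank ℝ (W →L[ℝ] ℝ) := by
    have h1 := LinearEquiv.finrank_eq (LinearMap.toContinuousLinearMap (𝕜 := ℝ) (E := W) (F' := ℝ))
    rw [← h1]
    exact (Subspace.dual_finrank_eq).symm
  have hinj' : Function.Injective (h z₀ : W →ₗ[ℝ] (W →L[ℝ] ℝ)) := by
    rw [← LinearMap.ker_eq_bot, LinearMap.ker_eq_bot']
    exact hker
  set e : W ≃L[ℝ] (W →L[ℝ] ℝ) :=
    (LinearEquiv.ofInjectiveOfFinrankEq (h z₀ : W →ₗ[ℝ] (W →L[ℝ] ℝ)) hinj' hfr).toContinuousLinearEquiv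
    with he
  have hez : (e : W →L[ℝ] (W →L[ℝ] ℝ)) = h z₀ := by
    ext v : 1
    rfl
  have hinv : ContDiffAt ℝ 1 (fun z => ContinuousLinearMap.inverse (h z)) z₀ := by
    have h1 := contDiffAt_map_inverse (𝕜 := ℝ) (n := 1) e
    rw [hez] at h1
    exact h1.comp z₀ hsm
  set S : W → W := fun z => ContinuousLinearMap.inverse (h z) l with hS
  have hSs : ContDiffAt ℝ 1 S z₀ := hinv.clm_apply contDiffAt_const
  have hS1 : ∀ᶠ z in 𝓝 z₀, h z (S z) = l := by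
    have h1 : ∀ᶠ T in 𝓝 (h z₀), T ∈ range ((↑) : (W ≃L[ℝ] (W →L[ℝ] ℝ)) → _) := by
      rw [← hez]; exact ContinuousLinearEquiv.nhds e
    filter_upwards [hsm.continuousAt.eventually h1] with z hz
    obtain ⟨e', he'⟩ := hz
    rw [hS]
    simp only
    rw [← he', ContinuousLinearMap.inverse_equiv]
    simp
  have hpos : ∀ z, h z (S z) = l → l (S z) ≠ 0 := by
    intro z hz h0
    have h1 : h z (S z) (S z) = 0 := by rw [hz, h0]
    rw [hval] at h1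
    have h2 : D z (S z) = 0 := inner_self_eq_zero.1 h1
    refine hl ?_
    rw [← hz]
    ext w
    rw [hval, h2, inner_zero_left]
    rfl
  refine ⟨fun z => ((c - l z) / l (S z)) • S z, ?_, ?_⟩
  · refine ContDiffAt.smul ?_ hSs
    refine ContDiffAt.div (contDiffAt_const.sub l.contDiff.contDiffAt) ?_ ?_
    · exact l.contDiff.contDiffAt.comp z₀ hSs
    · exact hpos z₀ hS1.self_of_nhds
  · filter_upwards [hS1] with z hz
    have h0 := hpos z hz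
    refine ⟨?_, ?_⟩
    · show l _ = c
      rw [map_add, map_smul, smul_eq_mul]
      field_simp
      ring
    · intro p hp q hq
      rw [map_smul, inner_smul_left]
      have h1 : inner ℝ (D z (S z)) (D z (p - q)) = l (p - q) := by
        rw [← hval, hz]
      have hp' : l p = c := hp
      have hq' : l q = c := hq
      rw [h1, map_sub, hp', hq', sub_self, mul_zero]

end alg

variable {W : Type*} [NormedAddCommGroup W] [NormedSpace ℝ W]
  {F : Type*} [NormedAddCommGroup F] [InnerProductSpace ℝ F]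
  {M : Type*} [TopologicalSpace M] {B : Form W} {G : GX M B (0 : ℝ)} {ξ : M → F}
  {H : M → (M → W) → Set W} {x : M} {φ φ' : M → W} {ψ ψ' : W → M}

/-- A parallel field of affine hyperplanes. -/
structure ParH (G : GX M B (0 : ℝ)) (ξ : M → F) (H : M → (M → W) → Set W) : Prop where
  sm : G.Smooth ξ
  imm : G.Immersion ξ
  h1 : ∀ {x φ ψ}, G.chart x φ ψ → ∀ᶠ x' in 𝓝 x, H x' φ = H x φ
  h2 : ∀ {x φ ψ φ' ψ'}, G.chart x φ ψ → G.chart x φ' ψ' → ∀ A : Iso B.b (0 : ℝ),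
      (∀ᶠ x' in 𝓝 x, φ' x' = A.act (φ x')) → H x φ' = A.act '' H x φ
  h3 : ∀ {x φ ψ}, G.chart x φ ψ → ∃ (l : W →L[ℝ] ℝ) (c : ℝ), l ≠ 0 ∧ H x φ = {z | l z = c}

open Classical in
/-- The projection to the hyperplane. -/
noncomputable def Yv (ξ : M → F) (H : M → (M → W) → Set W) (x : M) (φ : M → W) (ψ : W → M) : W :=
  if h : ∃ Y, IsY (fderiv ℝ (ξ ∘ ψ) (φ x)) (H x φ) (φ x) Y then h.choose else 0

namespace ParH

variable (hp : ParH G ξ H)
include hp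

theorem inj (h : G.chart x φ ψ) : ∀ w, fderiv ℝ (ξ ∘ ψ) (φ x) w = 0 → w = 0 :=
  fun w hw => hp.imm h w (by simp [Tan]) hw

theorem Yv_eq (h : G.chart x φ ψ) {Y : W}
    (hY : IsY (fderiv ℝ (ξ ∘ ψ) (φ x)) (H x φ) (φ x) Y) : Yv ξ H x φ ψ = Y := by
  have h1 : ∃ Y, IsY (fderiv ℝ (ξ ∘ ψ) (φ x)) (H x φ) (φ x) Y := ⟨Y, hY⟩
  unfold Yv
  rw [dif_pos h1]
  exact h1.choose_spec.unique (hp.inj h) hY

theorem exists_local [FiniteDimensional ℝ W] (h : G.chart x φ ψ) :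
    ∃ (y : W → W) (l : W →L[ℝ] ℝ) (c : ℝ), l ≠ 0 ∧ ContDiffAt ℝ 1 y (φ x) ∧
      (∀ᶠ x' in 𝓝 x, IsY (fderiv ℝ (ξ ∘ ψ) (φ x')) (H x' φ) (φ x') (y (φ x')) ∧
        Yv ξ H x' φ ψ = y (φ x')) ∧
      ∀ᶠ z in 𝓝 (φ x), l (z + y z) = c := by
  obtain ⟨l, c, hl, hH⟩ := hp.h3 h
  have c2 : ContDiffAt ℝ 1 (fderiv ℝ (ξ ∘ ψ)) (φ x) := (hp.sm h).fderiv_right (by norm_num)
  obtain ⟨y, hy1, hy2⟩ := exists_field c2 (hp.inj h) hl c
  refine ⟨y, l, c, hl, hy1, ?_, ?_⟩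
  · filter_upwards [(G.cont h).eventually hy2, hp.h1 h, G.nhds h] with x' h1 h2 h3
    have h4 : IsY (fderiv ℝ (ξ ∘ ψ) (φ x')) (H x' φ) (φ x') (y (φ x')) := by
      rw [h2, hH]; exact h1
    exact ⟨h4, hp.Yv_eq h3 h4⟩
  · filter_upwards [hy2] with z hz using hz.1

theorem isY [FiniteDimensional ℝ W] (h : G.chart x φ ψ) :
    IsY (fderiv ℝ (ξ ∘ ψ) (φ x)) (H x φ) (φ x) (Yv ξ H x φ ψ) := by
  obtain ⟨y, l, c, -, -, h1, -⟩ := hp.exists_local h
  have := h1.self_of_nhds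
  rw [this.2]
  exact this.1

theorem Yv_act [FiniteDimensional ℝ W] (h : G.chart x φ ψ) (h' : G.chart x φ' ψ')
    {A : Iso B.b (0 : ℝ)} (hA : ∀ᶠ x' in 𝓝 x, φ' x' = A.act (φ x')) :
    Yv ξ H x φ' ψ' = A.L (Yv ξ H x φ ψ) := by
  refine hp.Yv_eq h' ?_
  have h2 : φ' x = A.act (φ x) := hA.self_of_nhds
  have h3 : fderiv ℝ (ξ ∘ ψ') (φ' x) =
      (fderiv ℝ (ξ ∘ ψ) (φ x)).comp (A.L.symm : W →L[ℝ] W) := by
    rw [(G.comp_trans ξ h h' hA).fderiv_eq]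
    have h4 := A.hasFDerivAt_inv (φ' x)
    have h5 : HasFDerivAt (ξ ∘ ψ) (fderiv ℝ (ξ ∘ ψ) (φ x)) (A.inv (φ' x)) := by
      rw [h2, A.inv_act]; exact (G.differentiableAt hp.sm h).hasFDerivAt
    exact (h5.comp _ h4).fderiv
  rw [h3, hp.h2 h h' A hA, h2]
  exact (hp.isY h).act A

end ParH

end Pool.H84.KL
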