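import Pool.Agent.H84.KL.Fl2

/-!
# Flat structures: the global map
-/

namespace Pool.H84.KL

open Filter Topology Set MeasureTheory
open Pool.H1.Lor

variable {W : Type*} [NormedAddCommGroup W] [NormedSpace ℝ W] [FiniteDimensional ℝ W]
  {F : Type*} [NormedAddCommGroup F] [InnerProductSpace ℝ F]
  {M : Type*} [TopologicalSpace M] {B : Form W} {G : GX M B (0 : ℝ)} {ξ : M → F}
  {H : M → (M → W) → Set W} {x x₀ : M} {φ φ' : M → W} {ψ ψ' : W → M}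

namespace ParH

variable (hp : ParH G ξ H)
include hp

theorem tendsto_Yv (h : G.chart x₀ φ ψ) :
    Tendsto (fun p : ℝ × M => φ p.2 + p.1 • Yv ξ H p.2 φ ψ) (𝓝 ((0 : ℝ), x₀)) (𝓝 (φ x₀)) := by
  obtain ⟨y, l, c, -, hy, h1, -⟩ := hp.exists_local h
  have t1 : Tendsto (fun p : ℝ × M => p.2) (𝓝 ((0 : ℝ), x₀)) (𝓝 x₀) := continuous_snd.tendsto _
  have t0 : Tendsto (fun p : ℝ × M => p.1) (𝓝 ((0 : ℝ), x₀)) (𝓝 (0 : ℝ)) :=
    continuous_fst.tendsto _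
  have t2 : Tendsto (fun p : ℝ × M => Yv ξ H p.2 φ ψ) (𝓝 ((0 : ℝ), x₀)) (𝓝 (y (φ x₀))) := by
    have h2 : Tendsto (fun x => y (φ x)) (𝓝 x₀) (𝓝 (y (φ x₀))) :=
      hy.continuousAt.tendsto.comp (G.cont h)
    have h3 : Tendsto (fun x => Yv ξ H x φ ψ) (𝓝 x₀) (𝓝 (y (φ x₀))) :=
      h2.congr' (h1.mono fun x' hx' => hx'.2.symm)
    exact h3.comp t1
  have t3 := ((G.cont h).tendsto.comp t1).add (t0.smul t2)
  simpa using t3

omit hp [FiniteDimensional ℝ W] in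
theorem act_add {b : W →L[ℝ] W →L[ℝ] ℝ} (A : Iso b (0 : ℝ)) (z v : W) (s : ℝ) :
    A.inv (A.act z + s • A.L v) = z + s • v := by
  have : A.act z + s • A.L v = A.act (z + s • v) := by
    unfold Iso.act; rw [map_add, map_smul]; abel
  rw [this, A.inv_act]

/-- Two charts give the same local map. -/
theorem local_eq (h : G.chart x₀ φ ψ) (h' : G.chart x₀ φ' ψ') :
    ∀ᶠ p : ℝ × M in 𝓝 ((0 : ℝ), x₀), ψ' (φ' p.2 + p.1 • Yv ξ H p.2 φ' ψ') =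
      ψ (φ p.2 + p.1 • Yv ξ H p.2 φ ψ) := by
  obtain ⟨A, hA⟩ := G.rigid h h'
  have t1 : Tendsto (fun p : ℝ × M => p.2) (𝓝 ((0 : ℝ), x₀)) (𝓝 x₀) := continuous_snd.tendsto _
  filter_upwards [(hp.tendsto_Yv h').eventually (G.inv_trans h h' hA),
    t1.eventually hA.eventually_nhds, t1.eventually (G.nhds h), t1.eventually (G.nhds h')]
    with p h1 h2 h3 h4
  rw [h1, hp.Yv_act h3 h4 h2, h2.self_of_nhds, act_add]

theorem exists_map [CompactSpace M] [T2Space M] :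
    ∃ Fs : ℝ → M → M, ∀ {x₀ : M} {φ : M → W} {ψ : W → M}, G.chart x₀ φ ψ →
      ∀ᶠ p : ℝ × M in 𝓝 ((0 : ℝ), x₀), Fs p.1 p.2 = ψ (φ p.2 + p.1 • Yv ξ H p.2 φ ψ) := by
  classical
  have h1 : ∀ x : M, ∃ (φ : M → W) (ψ : W → M) (N : Set M), N ∈ 𝓝 x ∧ IsClosed N ∧
      ∀ x' ∈ N, G.chart x' φ ψ := by
    intro x
    obtain ⟨φ, ψ, h⟩ := G.exists_chart x
    obtain ⟨N, hN1, hN2, hN3⟩ := exists_mem_nhds_isClosed_subset (G.nhds h)
    exact ⟨φ, ψ, N, hN1, hN2, hN3⟩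
  choose Φ Ψ N hN1 hN2 hN3 using h1
  obtain ⟨t, ht⟩ := CompactSpace.elim_nhds_subcover N hN1
  have h2 : ∀ x, ∃ i ∈ t, x ∈ N i := by
    intro x
    have h4 : x ∈ ⋃ x ∈ t, N x := by rw [ht]; trivial
    obtain ⟨i, hi, hi'⟩ := mem_iUnion₂.1 h4
    exact ⟨i, hi, hi'⟩
  choose j hj1 hj2 using h2
  refine ⟨fun s x => Ψ (j x) (Φ (j x) x + s • Yv ξ H x (Φ (j x)) (Ψ (j x))), ?_⟩
  intro x₀ φ ψ h
  have t1 : Tendsto (fun p : ℝ × M => p.2) (𝓝 ((0 : ℝ), x₀)) (𝓝 x₀) := continuous_snd.tendsto _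
  have h3 : ∀ i ∈ t, ∀ᶠ p : ℝ × M in 𝓝 ((0 : ℝ), x₀), j p.2 = i →
      Ψ i (Φ i p.2 + p.1 • Yv ξ H p.2 (Φ i) (Ψ i)) = ψ (φ p.2 + p.1 • Yv ξ H p.2 φ ψ) := by
    intro i _
    by_cases hi : x₀ ∈ N i
    · filter_upwards [hp.local_eq h (hN3 i _ hi)] with p hp _ using hp
    · have h4 : ∀ᶠ x' in 𝓝 x₀, x' ∈ (N i)ᶜ := (hN2 i).isOpen_compl.mem_nhds hi
      filter_upwards [t1.eventually h4] with p hp' he
      refine absurd ?_ hp'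
      rw [← he]
      exact hj2 p.2
  filter_upwards [(Finset.eventually_all t).2 h3] with p hp'
  exact hp' (j p.2) (hj1 _) rfl

end ParH

end Pool.H84.KL
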