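import Pool.Agent.H84.KL.Fl3

/-!
# Flat structures: bijectivity of the global map
-/

namespace Pool.H84.KL

open Filter Topology Set MeasureTheory
open Pool.H1.Lor

section loc
variable {W : Type*} [NormedAddCommGroup W] [NormedSpace ℝ W]

/-- The family `z ↦ z + s y(z)`. -/
def Ph (y : W → W) (p : ℝ × W) : ℝ × W := (p.1, p.2 + p.1 • y p.2)

/-- Its derivative at `s = 0`. -/
def PhE (v : W) : (ℝ × W) ≃L[ℝ] (ℝ × W) :=
  ContinuousLinearEquiv.equivOfInverse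
    ((ContinuousLinearMap.fst ℝ ℝ W).prod
      (ContinuousLinearMap.snd ℝ ℝ W + (ContinuousLinearMap.fst ℝ ℝ W).smulRight v))
    ((ContinuousLinearMap.fst ℝ ℝ W).prod
      (ContinuousLinearMap.snd ℝ ℝ W - (ContinuousLinearMap.fst ℝ ℝ W).smulRight v))
    (fun p => by ext <;> simp) (fun p => by ext <;> simp)

theorem hasStrict_Ph [FiniteDimensional ℝ W] {y : W → W} {z₀ : W} (hy : ContDiffAt ℝ 1 y z₀) :
    HasStrictFDerivAt (Ph y) (PhE (y z₀) : (ℝ × W) →L[ℝ] (ℝ × W)) ((0 : ℝ), z₀) := by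
  have h1 : HasStrictFDerivAt y (fderiv ℝ y z₀) ((((0 : ℝ), z₀) : ℝ × W)).2 :=
    hy.hasStrictFDerivAt (by norm_num)
  have h2 := h1.comp ((0 : ℝ), z₀) (hasStrictFDerivAt_snd (𝕜 := ℝ) (E := ℝ) (F := W))
  have h3 := (hasStrictFDerivAt_fst (𝕜 := ℝ) (E := ℝ) (F := W) (p := ((0 : ℝ), z₀))).smul h2
  have h4 := (hasStrictFDerivAt_fst (𝕜 := ℝ) (E := ℝ) (F := W) (p := ((0 : ℝ), z₀))).prodMk
    ((hasStrictFDerivAt_snd (𝕜 := ℝ) (E := ℝ) (F := W) (p := ((0 : ℝ), z₀))).add h3)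
  have e : (PhE (y z₀) : (ℝ × W) →L[ℝ] (ℝ × W)) = (ContinuousLinearMap.fst ℝ ℝ W).prod
      (ContinuousLinearMap.snd ℝ ℝ W +
        ((((0 : ℝ), z₀) : ℝ × W).1 • (fderiv ℝ y z₀).comp (ContinuousLinearMap.snd ℝ ℝ W) +
          (ContinuousLinearMap.fst ℝ ℝ W).smulRight (y (((0 : ℝ), z₀) : ℝ × W).2))) := by
    ext p <;> simp [PhE]
  rw [e]
  exact h4

theorem map_Ph [FiniteDimensional ℝ W] {y : W → W} {z₀ : W} (hy : ContDiffAt ℝ 1 y z₀) :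
    map (Ph y) (𝓝 ((0 : ℝ), z₀)) = 𝓝 ((0 : ℝ), z₀) := by
  have : CompleteSpace W := FiniteDimensional.complete ℝ W
  have := (hasStrict_Ph hy).map_nhds_eq_of_equiv
  rw [this]
  simp [Ph]

theorem inj_Ph [FiniteDimensional ℝ W] {y : W → W} {z₀ : W} (hy : ContDiffAt ℝ 1 y z₀) :
    ∃ U ∈ 𝓝 ((0 : ℝ), z₀), InjOn (Ph y) U := by
  have : CompleteSpace W := FiniteDimensional.complete ℝ W
  exact ⟨_, ((hasStrict_Ph hy).toOpenPartialHomeomorph _).open_source.mem_nhds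
    (hasStrict_Ph hy).mem_toOpenPartialHomeomorph_source,
    ((hasStrict_Ph hy).toOpenPartialHomeomorph _).injOn⟩

end loc

variable {W : Type*} [NormedAddCommGroup W] [NormedSpace ℝ W] [FiniteDimensional ℝ W]
  {F : Type*} [NormedAddCommGroup F] [InnerProductSpace ℝ F]
  {M : Type*} [TopologicalSpace M] {B : Form W} {G : GX M B (0 : ℝ)} {ξ : M → F}
  {H : M → (M → W) → Set W} {x x₀ : M} {φ φ' : M → W} {ψ ψ' : W → M}

namespace ParH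

variable (hp : ParH G ξ H) {Fs : ℝ → M → M}
  (hF : ∀ {x₀ : M} {φ : M → W} {ψ : W → M}, G.chart x₀ φ ψ →
    ∀ᶠ p : ℝ × M in 𝓝 ((0 : ℝ), x₀), Fs p.1 p.2 = ψ (φ p.2 + p.1 • Yv ξ H p.2 φ ψ))
include hp hF

/-- The local description of the global map. -/
theorem local_all (h : G.chart x₀ φ ψ) :
    ∃ (y : W → W) (l : W →L[ℝ] ℝ) (c : ℝ), l ≠ 0 ∧ ContDiffAt ℝ 1 y (φ x₀) ∧
      (∀ᶠ z in 𝓝 (φ x₀), l (z + y z) = c) ∧
      ∀ᶠ p : ℝ × M in 𝓝 ((0 : ℝ), x₀), G.chart p.2 φ ψ ∧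
        Fs p.1 p.2 = ψ (φ p.2 + p.1 • y (φ p.2)) ∧ G.chart (Fs p.1 p.2) φ ψ ∧
        φ (Fs p.1 p.2) = φ p.2 + p.1 • y (φ p.2) := by
  obtain ⟨y, l, c, hl, hy, h1, h2⟩ := hp.exists_local h
  refine ⟨y, l, c, hl, hy, h2, ?_⟩
  have t1 : Tendsto (fun p : ℝ × M => p.2) (𝓝 ((0 : ℝ), x₀)) (𝓝 x₀) := continuous_snd.tendsto _
  filter_upwards [t1.eventually h1, hF h, (hp.tendsto_Yv h).eventually (good0 h),
    t1.eventually (G.nhds h)] with p h3 h4 h5 h6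
  rw [h3.2] at h4 h5
  refine ⟨h6, h4, ?_, ?_⟩
  · rw [h4]; exact h5.1
  · rw [h4]; exact h5.2

omit [FiniteDimensional ℝ W] hp in
theorem Fs_zero (x : M) : Fs 0 x = x := by
  obtain ⟨φ, ψ, h⟩ := G.exists_chart x
  have h1 : Fs 0 x = ψ (φ x + (0 : ℝ) • Yv ξ H x φ ψ) := (hF h).self_of_nhds
  rw [h1, zero_smul, add_zero, G.left_inv h]

theorem tendsto_Fs (x₀ : M) :
    Tendsto (fun p : ℝ × M => Fs p.1 p.2) (𝓝 ((0 : ℝ), x₀)) (𝓝 x₀) := by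
  obtain ⟨φ, ψ, h⟩ := G.exists_chart x₀
  have h1 := (G.tendsto_inv h).comp (hp.tendsto_Yv h)
  exact h1.congr' ((hF h).mono fun p hp => hp.symm)

theorem inj_near (x₀ : M) : ∀ᶠ p : ℝ × (M × M) in 𝓝 ((0 : ℝ), (x₀, x₀)),
    Fs p.1 p.2.1 = Fs p.1 p.2.2 → p.2.1 = p.2.2 := by
  obtain ⟨φ, ψ, h⟩ := G.exists_chart x₀
  obtain ⟨y, l, c, -, hy, -, h1⟩ := hp.local_all hF h
  obtain ⟨U, hU, hinj⟩ := inj_Ph hy
  have ta : Tendsto (fun p : ℝ × (M × M) => (p.1, p.2.1)) (𝓝 ((0 : ℝ), (x₀, x₀)))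
      (𝓝 ((0 : ℝ), x₀)) :=
    (continuous_fst.prodMk (continuous_fst.comp continuous_snd)).tendsto _
  have tb : Tendsto (fun p : ℝ × (M × M) => (p.1, p.2.2)) (𝓝 ((0 : ℝ), (x₀, x₀)))
      (𝓝 ((0 : ℝ), x₀)) :=
    (continuous_fst.prodMk (continuous_snd.comp continuous_snd)).tendsto _
  have tφ : Tendsto (fun p : ℝ × M => (p.1, φ p.2)) (𝓝 ((0 : ℝ), x₀)) (𝓝 ((0 : ℝ), φ x₀)) :=
    (continuous_fst.tendsto _).prodMk_nhds ((G.cont h).tendsto.comp (continuous_snd.tendsto _))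
  have hU' := tφ.eventually hU
  filter_upwards [ta.eventually h1, tb.eventually h1, ta.eventually hU', tb.eventually hU']
    with p pa pb ua ub he
  have h2 : Ph y (p.1, φ p.2.1) = Ph y (p.1, φ p.2.2) := by
    unfold Ph
    simp only at pa pb ⊢
    rw [← pa.2.2.2, ← pb.2.2.2, he]
  have h3 := hinj ua ub h2
  have h4 : φ p.2.1 = φ p.2.2 := congrArg Prod.snd h3
  have h5 := G.left_inv pa.1
  have h6 := G.left_inv pb.1
  rw [← h5, h4, h6]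

theorem inj_far [T2Space M] {x₀ x₁ : M} (hne : x₀ ≠ x₁) :
    ∀ᶠ p : ℝ × (M × M) in 𝓝 ((0 : ℝ), (x₀, x₁)), Fs p.1 p.2.1 ≠ Fs p.1 p.2.2 := by
  have ta : Tendsto (fun p : ℝ × (M × M) => (p.1, p.2.1)) (𝓝 ((0 : ℝ), (x₀, x₁)))
      (𝓝 ((0 : ℝ), x₀)) :=
    (continuous_fst.prodMk (continuous_fst.comp continuous_snd)).tendsto _
  have tb : Tendsto (fun p : ℝ × (M × M) => (p.1, p.2.2)) (𝓝 ((0 : ℝ), (x₀, x₁)))
      (𝓝 ((0 : ℝ), x₁)) :=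
    (continuous_fst.prodMk (continuous_snd.comp continuous_snd)).tendsto _
  have h1 := (hp.tendsto_Fs hF x₀).comp ta
  have h2 := (hp.tendsto_Fs hF x₁).comp tb
  obtain ⟨U, V, hU, hV, hUx, hVx, hd⟩ := t2_separation hne
  filter_upwards [h1.eventually (hU.mem_nhds hUx), h2.eventually (hV.mem_nhds hVx)]
    with p pa pb he
  simp only [Function.comp_apply] at pa pb
  rw [he] at pa
  exact hd.le_bot ⟨pa, pb⟩

theorem surj_near (x₀ : M) : ∀ᶠ p : ℝ × M in 𝓝 ((0 : ℝ), x₀), ∃ a, Fs p.1 a = p.2 := by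
  obtain ⟨φ, ψ, h⟩ := G.exists_chart x₀
  obtain ⟨y, l, c, -, hy, -, h1⟩ := hp.local_all hF h
  have tψ : Tendsto (fun p : ℝ × W => (p.1, ψ p.2)) (𝓝 ((0 : ℝ), φ x₀)) (𝓝 ((0 : ℝ), x₀)) :=
    (continuous_fst.tendsto _).prodMk_nhds
      ((G.tendsto_inv h).comp (continuous_snd.tendsto _))
  have tφ : Tendsto (fun p : ℝ × M => (p.1, φ p.2)) (𝓝 ((0 : ℝ), x₀)) (𝓝 ((0 : ℝ), φ x₀)) :=
    (continuous_fst.tendsto _).prodMk_nhds ((G.cont h).tendsto.comp (continuous_snd.tendsto _))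
  have t2 : Tendsto (fun p : ℝ × W => p.2) (𝓝 ((0 : ℝ), φ x₀)) (𝓝 (φ x₀)) :=
    continuous_snd.tendsto _
  have h2 : ∀ᶠ p : ℝ × W in 𝓝 ((0 : ℝ), φ x₀), φ (ψ p.2) = p.2 ∧
      Fs p.1 (ψ p.2) = ψ (p.2 + p.1 • y p.2) := by
    filter_upwards [tψ.eventually h1, t2.eventually (good0 h)] with p h3 h4
    refine ⟨h4.2, ?_⟩
    have := h3.2.1
    rw [this, h4.2]
  have h3 : ∀ᶠ p : ℝ × W in 𝓝 ((0 : ℝ), φ x₀), ∃ q, Ph y q = p ∧
      Fs q.1 (ψ q.2) = ψ (q.2 + q.1 • y q.2) := by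
    rw [← map_Ph hy, eventually_map]
    filter_upwards [h2] with p hp' using ⟨p, rfl, hp'.2⟩
  have t3 : Tendsto (fun p : ℝ × M => p.2) (𝓝 ((0 : ℝ), x₀)) (𝓝 x₀) := continuous_snd.tendsto _
  filter_upwards [tφ.eventually h3, t3.eventually (G.nhds h)] with p h4 h5
  obtain ⟨q, hq1, hq2⟩ := h4
  have e1 : q.1 = p.1 := congrArg Prod.fst hq1
  have e2 : q.2 + q.1 • y q.2 = φ p.2 := congrArg Prod.snd hq1
  refine ⟨ψ q.2, ?_⟩
  rw [← e1, hq2, e2, G.left_inv h5]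

theorem bij [CompactSpace M] [T2Space M] : ∀ᶠ s : ℝ in 𝓝 0, Function.Bijective (Fs s) := by
  have h1 : ∀ᶠ s : ℝ in 𝓝 0, ∀ q ∈ (univ : Set (M × M)), Fs s q.1 = Fs s q.2 → q.1 = q.2 := by
    refine isCompact_univ.eventually_forall_of_forall_eventually fun q _ => ?_
    obtain ⟨x₀, x₁⟩ := q
    by_cases hne : x₀ = x₁
    · subst hne
      exact hp.inj_near hF x₀
    · filter_upwards [hp.inj_far hF hne] with p h1 h2 using absurd h2 h1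
  have h2 : ∀ᶠ s : ℝ in 𝓝 0, ∀ q ∈ (univ : Set M), ∃ a, Fs s a = q :=
    isCompact_univ.eventually_forall_of_forall_eventually fun q _ => hp.surj_near hF q
  filter_upwards [h1, h2] with s h3 h4
  exact ⟨fun a b hab => h3 (a, b) trivial hab, fun b => h4 b trivial⟩

end ParH

end Pool.H84.KL
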