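import Pool.Agent.H84.KL.Fl4

/-!
# Flat structures: polynomial interpolation for determinants, local data
-/

namespace Pool.H84.KL

open Filter Topology Set MeasureTheory
open Pool.H1.Lor

section interp
variable {W : Type*} [NormedAddCommGroup W] [NormedSpace ℝ W] [FiniteDimensional ℝ W]

open Polynomial in
theorem exists_poly (L : W →L[ℝ] W) : ∃ p : ℝ[X], p.natDegree ≤ Module.finrank ℝ W ∧
    ∀ t : ℝ, p.eval t = (1 + t • L : W →L[ℝ] W).det := by
  classical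
  set b := Module.finBasis ℝ W
  set A : Matrix _ _ ℝ := LinearMap.toMatrix b b (L : W →ₗ[ℝ] W) with hA
  refine ⟨Matrix.det ((X : ℝ[X]) • A.map C + (1 : Matrix _ _ ℝ).map C), ?_, ?_⟩
  · refine (natDegree_det_X_add_C_le A 1).trans ?_
    simp
  · intro t
    have h2 : ((1 + t • L : W →L[ℝ] W) : W →ₗ[ℝ] W) = LinearMap.id + t • (L : W →ₗ[ℝ] W) := by
      ext; simp
    have h1 : ((evalRingHom t).mapMatrix ((X : ℝ[X]) • A.map C + (1 : Matrix _ _ ℝ).map C)) =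
        LinearMap.toMatrix b b ((1 + t • L : W →L[ℝ] W) : W →ₗ[ℝ] W) := by
      have h4 : LinearMap.toMatrix b b (LinearMap.id + t • (L : W →ₗ[ℝ] W)) = 1 + t • A := by
        rw [map_add, map_smul, LinearMap.toMatrix_id]
      rw [h2, h4]
      ext i j
      simp only [RingHom.mapMatrix_apply, Matrix.map_apply, Matrix.add_apply, Matrix.smul_apply,
        smul_eq_mul, coe_evalRingHom, eval_add, eval_mul, eval_X, eval_C]
      ring
    have h3 := RingHom.map_det (evalRingHom t) ((X : ℝ[X]) • A.map C + (1 : Matrix _ _ ℝ).map C)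
    rw [h1, LinearMap.det_toMatrix] at h3
    exact h3

theorem det_interp (s : ℕ → ℝ) (hs : Set.InjOn s (Finset.range (Module.finrank ℝ W + 1))) :
    ∃ c : ℕ → ℝ, ∑ k ∈ Finset.range (Module.finrank ℝ W + 1), c k = 1 ∧ ∀ L : W →L[ℝ] W,
      (1 + L).det = ∑ k ∈ Finset.range (Module.finrank ℝ W + 1),
        c k * (1 + s k • L : W →L[ℝ] W).det := by
  refine ⟨fun k => (Lagrange.basis (Finset.range (Module.finrank ℝ W + 1)) s k).eval 1, ?_, ?_⟩
  · have h1 := Lagrange.sum_basis hs (by simp)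
    have h2 := congrArg (Polynomial.eval 1) h1
    rw [Polynomial.eval_finsetSum, Polynomial.eval_one] at h2
    exact h2
  · intro L
    obtain ⟨p, hp1, hp2⟩ := exists_poly L
    have h1 : p.degree < (Finset.range (Module.finrank ℝ W + 1)).card := by
      rw [Finset.card_range]
      refine lt_of_le_of_lt Polynomial.degree_le_natDegree ?_
      exact_mod_cast Nat.lt_succ_of_le hp1
    have h2 := congrArg (Polynomial.eval 1) (Lagrange.eq_interpolate hs h1)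
    rw [hp2, Lagrange.interpolate_apply, Polynomial.eval_finsetSum, one_smul] at h2
    rw [h2]
    refine Finset.sum_congr rfl fun k _ => ?_
    rw [Polynomial.eval_mul, Polynomial.eval_C, hp2, mul_comm]

end interp

variable {W : Type*} [NormedAddCommGroup W] [NormedSpace ℝ W] [FiniteDimensional ℝ W]
  {F : Type*} [NormedAddCommGroup F] [InnerProductSpace ℝ F]
  {M : Type*} [TopologicalSpace M] {B : Form W} {G : GX M B (0 : ℝ)} {ξ : M → F}
  {H : M → (M → W) → Set W} {x x₀ : M} {φ φ' : M → W} {ψ ψ' : W → M}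

/-- Local data on which everything is explicit. -/
structure LocD (G : GX M B (0 : ℝ)) (Fs : ℝ → M → M) (φ : M → W) (ψ : W → M) (y : W → W)
    (R δ : ℝ) (N : Set M) : Prop where
  pos : 0 < δ
  op : IsOpen N
  chart : ∀ x ∈ N, G.chart x φ ψ
  bd : ∀ x ∈ N, ‖φ x‖ ≤ R
  diff : ∀ x ∈ N, HasFDerivAt y (fderiv ℝ y (φ x)) (φ x)
  zero : ∀ x ∈ N, (1 + fderiv ℝ y (φ x)).det = 0
  ch2 : ∀ x ∈ N, ∀ s : ℝ, |s| < δ → G.chart (Fs s x) φ ψ
  eq : ∀ x ∈ N, ∀ s : ℝ, |s| < δ → φ (Fs s x) = φ x + s • y (φ x)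
  dpos : ∀ x ∈ N, ∀ s : ℝ, |s| < δ → 0 < (1 + s • fderiv ℝ y (φ x) : W →L[ℝ] W).det

theorem det_zero {y : W → W} {z : W} {l : W →L[ℝ] ℝ} {c : ℝ} (hl : l ≠ 0)
    (hy : DifferentiableAt ℝ y z) (h : ∀ᶠ z in 𝓝 z, l (z + y z) = c) :
    (1 + fderiv ℝ y z).det = 0 := by
  by_contra hne
  have h1 : HasFDerivAt (fun z => z + y z) (ContinuousLinearMap.id ℝ W + fderiv ℝ y z) z :=
    (hasFDerivAt_id z).add hy.hasFDerivAt
  have h2 : HasFDerivAt (fun z => l (z + y z)) (l.comp (ContinuousLinearMap.id ℝ W + fderiv ℝ y z)) z :=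
    l.hasFDerivAt.comp z h1
  have h3 : HasFDerivAt (fun z => l (z + y z)) (0 : W →L[ℝ] ℝ) z :=
    (hasFDerivAt_const c z).congr_of_eventuallyEq h
  have h4 := h2.unique h3
  refine hl ?_
  ext w
  have h5 : Function.Surjective ((1 + fderiv ℝ y z : W →L[ℝ] W) : W →ₗ[ℝ] W) :=
    (LinearMap.equivOfDetNeZero _ hne).surjective
  obtain ⟨v, rfl⟩ := h5 w
  exact congrArg (fun f : W →L[ℝ] ℝ => f v) h4

namespace ParH

variable (hp : ParH G ξ H) {Fs : ℝ → M → M}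
  (hF : ∀ {x₀ : M} {φ : M → W} {ψ : W → M}, G.chart x₀ φ ψ →
    ∀ᶠ p : ℝ × M in 𝓝 ((0 : ℝ), x₀), Fs p.1 p.2 = ψ (φ p.2 + p.1 • Yv ξ H p.2 φ ψ))
include hp hF

theorem exists_locD (x₀ : M) : ∃ φ ψ y R δ N, x₀ ∈ N ∧ LocD G Fs φ ψ y R δ N := by
  obtain ⟨φ, ψ, h⟩ := G.exists_chart x₀
  obtain ⟨y, l, c, hl, hy, hc, h1⟩ := hp.local_all hF h
  have hφ := G.cont h
  have t1 : Tendsto (fun p : ℝ × M => p.2) (𝓝 ((0 : ℝ), x₀)) (𝓝 x₀) := continuous_snd.tendsto _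
  have t0 : Tendsto (fun p : ℝ × M => p.1) (𝓝 ((0 : ℝ), x₀)) (𝓝 (0 : ℝ)) :=
    continuous_fst.tendsto _
  have c1 : ContinuousAt (fderiv ℝ y) (φ x₀) :=
    (hy.fderiv_right (m := 0) (by norm_num)).continuousAt
  have d1 : ∀ᶠ z in 𝓝 (φ x₀), DifferentiableAt ℝ y z := by
    filter_upwards [hy.eventually (by simp)] with z hz using hz.differentiableAt (by norm_num)
  have t2 : Tendsto (fun p : ℝ × M => (1 + p.1 • fderiv ℝ y (φ p.2) : W →L[ℝ] W))
      (𝓝 ((0 : ℝ), x₀)) (𝓝 1) := by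
    have h2 := t0.smul ((c1.tendsto.comp hφ).comp t1)
    have h3 := (tendsto_const_nhds (x := (1 : W →L[ℝ] W))).add h2
    simpa using h3
  have t3 : ∀ᶠ p : ℝ × M in 𝓝 ((0 : ℝ), x₀), 0 < (1 + p.1 • fderiv ℝ y (φ p.2) : W →L[ℝ] W).det := by
    have h2 : ∀ᶠ L : W →L[ℝ] W in 𝓝 1, 0 < L.det := by
      have h3 : Tendsto (fun L : W →L[ℝ] W => L.det) (𝓝 1) (𝓝 (1 : W →L[ℝ] W).det) :=
        ContinuousLinearMap.continuous_det.tendsto _
      have h4 : (1 : W →L[ℝ] W).det = 1 := by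
        show LinearMap.det (LinearMap.id : W →ₗ[ℝ] W) = 1
        exact LinearMap.det_id
      rw [h4] at h3
      exact h3.eventually (lt_mem_nhds zero_lt_one)
    exact t2.eventually h2
  have t4 : ∀ᶠ x in 𝓝 x₀, ‖φ x‖ < ‖φ x₀‖ + 1 :=
    hφ.norm.eventually (gt_mem_nhds (lt_add_one _))
  have hall := h1.and (t3.and (t1.eventually (t4.and ((hφ.eventually d1).and
    (hφ.eventually hc.eventually_nhds)))))
  rw [nhds_prod_eq, eventually_prod_iff] at hall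
  obtain ⟨pa, hpa, pb, hpb, hab⟩ := hall
  obtain ⟨δ, hδ, hδ'⟩ := Metric.eventually_nhds_iff.1 hpa
  obtain ⟨N, hN1, hN2, hN3⟩ := eventually_nhds_iff.1 hpb
  have key : ∀ x ∈ N, ∀ s : ℝ, |s| < δ → _ := fun x hx s hs =>
    hab (hδ' (by simpa [Real.dist_eq] using hs)) (hN1 x hx)
  have key0 : ∀ x ∈ N, _ := fun x hx => key x hx 0 (by simpa using hδ)
  refine ⟨φ, ψ, y, ‖φ x₀‖ + 1, δ, N, hN3, ?_⟩
  refine ⟨hδ, hN2, fun x hx => (key0 x hx).1.1, fun x hx => (key0 x hx).2.2.1.le,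
    fun x hx => (key0 x hx).2.2.2.1.hasFDerivAt,
    fun x hx => det_zero hl (key0 x hx).2.2.2.1 (key0 x hx).2.2.2.2,
    fun x hx s hs => (key x hx s hs).1.2.2.1, fun x hx s hs => (key x hx s hs).1.2.2.2,
    fun x hx s hs => (key x hx s hs).2.1⟩

end ParH

end Pool.H84.KL
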