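import Pool.Agent.H84.KL.Det

/-!
# Isometries: uniqueness and invariance of volume
-/

namespace Pool.H84.KL

open Filter Topology Set MeasureTheory
open Pool.H1.Lor

variable {W : Type*} [NormedAddCommGroup W] [NormedSpace ℝ W]

theorem iso_ext {b : W →L[ℝ] W →L[ℝ] ℝ} {K : ℝ} {A A' : Iso b K}
    (h : (A.L : W →L[ℝ] W) = A'.L) (ha : A.a = A'.a) : A = A' := by
  cases A with
  | mk L a h1 h2 =>
    cases A' with
    | mk L' a' h1' h2' =>
      simp only at h ha
      have : L = L' := ContinuousLinearEquiv.coe_injective h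
      subst this
      subst ha
      rfl

theorem iso_eq_of_act {b : W →L[ℝ] W →L[ℝ] ℝ} {K : ℝ} {A A' : Iso b K} {z : W}
    (h : ∀ᶠ z' in 𝓝 z, A.act z' = A'.act z') : A = A' := by
  have h1 : (A.L : W →L[ℝ] W) = A'.L := by
    have h2 := A.hasFDerivAt_act z
    have h3 := A'.hasFDerivAt_act z
    exact h2.unique (h3.congr_of_eventuallyEq h)
  refine iso_ext h1 ?_
  have h4 := h.self_of_nhds
  unfold Iso.act at h4
  have h5 : A.L z = A'.L z := congrArg (fun f : W →L[ℝ] W => f z) h1
  rw [h5] at h4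
  exact add_left_cancel h4

/-- An isometry is determined by its action on a piece of the space form. -/
theorem iso_eq_of_nrm {b : W →L[ℝ] W →L[ℝ] ℝ} {K : ℝ} {A A' : Iso b K} {z : W}
    (hz : 0 < K * b z z + dl K)
    (h : ∀ᶠ z' in 𝓝 z, A.act (nrm b K z') = A'.act (nrm b K z')) : A = A' := by
  have hpos : ∀ᶠ z' in 𝓝 z, 0 < K * b z' z' + dl K :=
    (continuous_form.tendsto z).eventually (lt_mem_nhds hz)
  refine iso_eq_of_act (z := z) ?_
  filter_upwards [h, hpos] with z' h1 h2
  have h3 := nf_pos h2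
  rw [← A.nrm_act, ← A'.nrm_act] at h1
  unfold nrm at h1
  rw [A.nf_act, A'.nf_act] at h1
  exact (smul_right_injective W (inv_ne_zero h3.ne')) h1

variable [FiniteDimensional ℝ W] [MeasurableSpace W] [BorelSpace W]

theorem measure_act (B : Form W) {K : ℝ} (μ : Measure W) [μ.IsAddHaarMeasure] (A : Iso B.b K)
    (S : Set W) : μ (A.act '' S) = μ S := by
  have h1 : A.act '' S = (fun z => z + A.a) '' ((A.L : W →L[ℝ] W) '' S) := by
    rw [Set.image_image]
    rfl
  rw [h1, Set.image_add_right, measure_preimage_add_right, Measure.addHaar_image_continuousLinearMap,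
    abs_det, ENNReal.ofReal_one, one_mul]

end Pool.H84.KL
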